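import Pool.Agent.helper25.TW.Spec2

set_option autoImplicit false

namespace TP.TW

open DP MeasureTheory Finset

theorem LEV_br (w : V) : sd (br w) w ≤ 1 := by
  unfold br
  split_ifs
  · simp [sd]
  · simp only [sd]
    omega

theorem LEV_level (R : ℕ) (S I : Finset V) (h : V → ℕ) (c : V → Bool) (k : Bool) (x : V) (t : ℕ)
    (hV : Vit R S I h) (u v : V) (hu : sd x u ≤ t) (hv : 3 * t ≤ sd x v)
    (hc : Conn c k (til S) u v) (m : ℕ) (hm1 : t ≤ m) (hm2 : m ≤ 3 * t) :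
    ∃ i ∈ I, sd x i ≤ 3 * t + 3 * 2 ^ h i ∧ TCH c k S i (h i) t ∧ m ≤ sd x i + 3 * 2 ^ h i ∧
      sd x i ≤ m + 3 * 2 ^ h i := by
  obtain ⟨w, hw, h1, h2⟩ := Con.exit (W := {w | w ∈ til S ∧ c w = k}) (x := x) (m := m) hc (by omega) (by omega)
  have h3 : Con {w | w ∈ til S ∧ c w = k} u w := h1.mono Set.inter_subset_left
  have h4 : br w ∈ S := (Con.mem_right h3).1
  obtain ⟨i, hi, h5⟩ := hV.1 (br w) h4
  have h6 : 1 ≤ 2 ^ h i := Nat.one_le_two_pow
  have h7 : sd i w ≤ 3 * 2 ^ h i := by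
    have e1 := sd_triangle i (br w) w
    have e2 := LEV_br w
    have e3 := sd_comm i (br w)
    omega
  have h8 : sd x i ≤ m + 3 * 2 ^ h i := by
    have e1 := sd_triangle x w i
    have e2 := sd_comm w i
    omega
  have h9 : m ≤ sd x i + 3 * 2 ^ h i := by
    have e1 := sd_triangle x i w
    omega
  refine ⟨i, hi, by omega, ?_, h9, h8⟩
  have h10 : 2 * t ≤ sd u v := by
    have e1 := sd_triangle x u v
    omega
  have h11 := sd_triangle u w v
  rcases le_or_gt t (sd u w) with h12 | h12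
  · refine ⟨w, u, h7, ?_, h3.symm⟩
    rw [sd_comm]
    exact h12
  · exact ⟨w, v, h7, by omega, h2⟩

theorem LEV : LEV_stmt := by
  classical
  intro R S I h c k x t ht hV hS
  obtain ⟨u, v, hu, hv, hc⟩ := hS
  have key : ∀ m : ℕ, ∃ i, m ∈ Icc t (3 * t) → i ∈ I ∧ sd x i ≤ 3 * t + 3 * 2 ^ h i ∧
      TCH c k S i (h i) t ∧ m ≤ sd x i + 3 * 2 ^ h i ∧ sd x i ≤ m + 3 * 2 ^ h i := by
    intro m
    by_cases hm : m ∈ Icc t (3 * t)
    · rw [mem_Icc] at hm
      obtain ⟨i, hi, h1⟩ := LEV_level R S I h c k x t hV u v hu hv hc m hm.1 hm.2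
      exact ⟨i, fun _ => ⟨hi, h1⟩⟩
    · exact ⟨x, fun h => absurd h hm⟩
  choose f hf using key
  refine ⟨(Icc t (3 * t)).image f, ?_, ?_, ?_⟩
  · intro i hi
    obtain ⟨m, hm, rfl⟩ := mem_image.mp hi
    exact (hf m hm).1
  · intro i hi
    obtain ⟨m, hm, rfl⟩ := mem_image.mp hi
    exact ⟨(hf m hm).2.1, (hf m hm).2.2.1⟩
  · have h1 := card_eq_sum_card_image f (Icc t (3 * t))
    rw [Nat.card_Icc] at h1
    have h2 : ∑ b ∈ (Icc t (3 * t)).image f, #{a ∈ Icc t (3 * t) | f a = b} ≤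
        ∑ b ∈ (Icc t (3 * t)).image f, 7 * 2 ^ h b := by
      apply sum_le_sum
      intro b _
      have h3 : ({a ∈ Icc t (3 * t) | f a = b} : Finset ℕ) ⊆
          Icc (sd x b - 3 * 2 ^ h b) (sd x b + 3 * 2 ^ h b) := by
        intro m hm
        rw [mem_filter] at hm
        obtain ⟨hm, rfl⟩ := hm
        have h4 := (hf m hm).2.2.2
        rw [mem_Icc]
        omega
      have h5 := card_le_card h3
      rw [Nat.card_Icc] at h5
      have h6 : 1 ≤ 2 ^ h b := Nat.one_le_two_pow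
      omega
    rw [mul_sum]
    omega

end TP.TW
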