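import Pool.Agent.helper25.TW.Spec

set_option autoImplicit false

namespace TP.TW

open DP MeasureTheory Finset

theorem VSP_prob : IsProbabilityMeasure P1 := by
  unfold P1
  infer_instance

theorem VSP_mono {F G : Set (V → Bool)} (h : F ⊆ G) : Pr F ≤ Pr G := by
  haveI := VSP_prob
  unfold Pr
  exact measureReal_mono h

theorem VSP_nonneg (F : Set (V → Bool)) : 0 ≤ Pr F := measureReal_nonneg

theorem VSP_le_one (F : Set (V → Bool)) : Pr F ≤ 1 := by
  haveI := VSP_prob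
  unfold Pr
  exact measureReal_le_one

theorem VSP_geom (c : ℝ) (hc : 0 < c) (hc1 : c ≤ 1) (M : ℕ) :
    ∑ j ∈ range M, (1 - c) ^ (j + 1) ≤ 1 / c := by
  have h0 : 0 ≤ 1 - c := by linarith
  have h := geom_sum_mul_neg (1 - c) M
  have h2 : ∑ j ∈ range M, (1 - c) ^ (j + 1) ≤ ∑ j ∈ range M, (1 - c) ^ j := by
    apply sum_le_sum
    intro j _
    rw [pow_succ]
    have := pow_nonneg h0 j
    nlinarith
  have h3 : 0 ≤ (1 - c) ^ M := pow_nonneg h0 M
  rw [le_div_iff₀ hc]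
  have h4 := mul_le_mul_of_nonneg_right h2 hc.le
  have h5 : (∑ j ∈ range M, (1 - c) ^ j) * c = 1 - (1 - c) ^ M := by
    rw [← h]
    ring
  linarith

open Classical in
theorem VSP_core (ct0 : CT0_stmt) (men : MEN_stmt) (det : DET_stmt) (lcr : LCR_stmt)
    (ein : EIN_stmt) (bkm : BKM_stmt) (c₀ : ℝ) (h0 : 0 < c₀) (h1 : c₀ ≤ 1) (o k : Bool)
    (a b d e : ℤ) (hab : a ≤ b) (hde : d ≤ e)
    (hq : Pr (Ev fun c => crs o c k Set.univ a b d e) ≤ 1 - c₀) (T : Finset (ℤ × ℤ))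
    (S : Finset V) :
    ∑ τ ∈ T, Pr (Ev fun c => crs o c k (til (shf τ S)) a b d e) ≤ (#S : ℝ) * (1 / c₀) := by
  obtain ⟨M, hM1, hM2⟩ : ∃ M : ℕ, b - a + 1 ≤ (M : ℤ) ∧ e - d + 1 ≤ (M : ℤ) :=
    ⟨(b - a + 1 + (e - d + 1)).toNat, by omega, by omega⟩
  have key := ein (ℤ × ℤ) ℕ T (range M) (fun τ => Ev fun c => crs o c k (til (shf τ S)) a b d e)
    (fun j => Ev fun c => many o c k a b d e (j + 1)) (rect a b d e) (#S)
    (fun τ _ => lcr.1 o k _ a b d e) (fun j _ => lcr.2.1 o k a b d e (j + 1)) (by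
      intro β
      have hM : cut o (col β) k a b d e M := ct0 o (col β) k a b d e M hab hde hM1 hM2
      have hex : ∃ K, cut o (col β) k a b d e K := ⟨M, hM⟩
      have hK : cut o (col β) k a b d e (Nat.find hex) := Nat.find_spec hex
      have hKM : Nat.find hex ≤ M := Nat.find_min' hex hM
      have hmany : ∀ j < Nat.find hex, many o (col β) k a b d e (j + 1) := fun j hj =>
        (men o β k a b d e j hab hde).resolve_left (Nat.find_min hex hj)
      have h1 := det o β k a b d e (Nat.find hex) S T hK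
      have h2 : Nat.find hex ≤ #{j ∈ range M | β ∈ Ev fun c => many o c k a b d e (j + 1)} := by
        calc Nat.find hex = #(range (Nat.find hex)) := (card_range _).symm
          _ ≤ _ := card_le_card (fun j hj => mem_filter.mpr
            ⟨mem_range.mpr (lt_of_lt_of_le (mem_range.mp hj) hKM), hmany j (mem_range.mp hj)⟩)
      calc _ ≤ Nat.find hex * #S := h1
        _ ≤ _ := by
          rw [mul_comm]
          exact Nat.mul_le_mul_left _ h2)
  refine key.trans ?_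
  apply mul_le_mul_of_nonneg_left _ (Nat.cast_nonneg _)
  refine le_trans ?_ (VSP_geom c₀ h0 h1 M)
  apply sum_le_sum
  intro j _
  refine (bkm o k a b d e (j + 1)).trans ?_
  exact pow_le_pow_left₀ (VSP_nonneg _) hq _

theorem VSP_card (s : ℕ) :
    #((range (s + 1) ×ˢ range (s + 1)).image fun q : ℕ × ℕ => ((2 * (q.1 : ℤ), 2 * (q.2 : ℤ)) : ℤ × ℤ)) =
      (s + 1) * (s + 1) := by
  rw [card_image_of_injective, card_product, card_range]
  intro p q h
  rw [Prod.mk.injEq] at h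
  ext
  · have := h.1
    omega
  · have := h.2
    omega

theorem VSP_fin (c₀ p : ℝ) (h0 : 0 < c₀) (hp : 0 ≤ p) (s t m : ℕ) (ht : 1 ≤ t) (hst : t < 16 * (s + 1))
    (h : (((s + 1) * (s + 1) : ℕ) : ℝ) * p ≤ (m : ℝ) * (1 / c₀)) :
    p ≤ 256 / c₀ * m / (t : ℝ) ^ 2 := by
  have ht0 : (0 : ℝ) < t := by exact_mod_cast ht
  have h1 : (t : ℝ) ≤ 16 * ((s : ℝ) + 1) := by exact_mod_cast hst.le
  have h2 : (t : ℝ) ^ 2 ≤ 256 * (((s + 1) * (s + 1) : ℕ) : ℝ) := by
    push_cast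
    nlinarith
  rw [le_div_iff₀ (by positivity)]
  calc p * (t : ℝ) ^ 2 ≤ p * (256 * (((s + 1) * (s + 1) : ℕ) : ℝ)) := mul_le_mul_of_nonneg_left h2 hp
    _ = 256 * ((((s + 1) * (s + 1) : ℕ) : ℝ) * p) := by ring
    _ ≤ 256 * ((m : ℝ) * (1 / c₀)) := by linarith
    _ = 256 / c₀ * m := by ring

theorem VSP_small (L t m : ℕ) (p : ℝ) (hp1 : p ≤ 1) (ht : 1 ≤ t) (htL : t ≤ L) (hm : m = 0 → p = 0) :
    p ≤ (L : ℝ) ^ 2 * m / (t : ℝ) ^ 2 := by
  have ht0 : (0 : ℝ) < t := by exact_mod_cast ht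
  rw [le_div_iff₀ (by positivity)]
  rcases Nat.eq_zero_or_pos m with h | h
  · rw [hm h, h]
    simp
  · have h1 : (1 : ℝ) ≤ m := by exact_mod_cast h
    have h2 : (t : ℝ) ^ 2 ≤ (L : ℝ) ^ 2 := by
      have : (t : ℝ) ≤ L := by exact_mod_cast htL
      nlinarith
    have h3 : p * (t : ℝ) ^ 2 ≤ 1 * (t : ℝ) ^ 2 := mul_le_mul_of_nonneg_right hp1 (by positivity)
    have h4 : (L : ℝ) ^ 2 * 1 ≤ (L : ℝ) ^ 2 * m := mul_le_mul_of_nonneg_left h1 (by positivity)
    linarith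

theorem VSP_empty (o k : Bool) (S : Finset V) (a b d e : ℤ) (h : #S = 0) :
    Pr (Ev fun c => crs o c k (til S) a b d e) = 0 := by
  have h1 : S = ∅ := card_eq_zero.mp h
  have h2 : (Ev fun c => crs o c k (til S) a b d e) = ∅ := by
    ext β
    simp only [Ev, Set.mem_setOf_eq, Set.mem_empty_iff_false, iff_false]
    rintro ⟨u, v, _, h3, _⟩
    have h4 : br u ∈ S := h3.1.2
    rw [h1] at h4
    exact absurd h4 (notMem_empty _)
  rw [h2]
  unfold Pr
  exact measureReal_empty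

theorem VSP (mno : MNO_stmt) (ct0 : CT0_stmt) (men : MEN_stmt) (det : DET_stmt) (lcr : LCR_stmt)
    (ein : EIN_stmt) (bkm : BKM_stmt) (qrs : QRS_stmt) (trs : TRS_stmt) : VSP_stmt := by
  classical
  obtain ⟨c₀, h0, h1, L, hL, hq⟩ := qrs
  refine ⟨256 / c₀ + (L.toNat : ℝ) ^ 2, by positivity, ?_⟩
  intro k S t a d ht
  have ht0 : (0 : ℝ) < t := by exact_mod_cast ht
  have hsplit : (256 / c₀ + (L.toNat : ℝ) ^ 2) * (#S : ℝ) / (t : ℝ) ^ 2 =
      256 / c₀ * (#S : ℝ) / (t : ℝ) ^ 2 + (L.toNat : ℝ) ^ 2 * (#S : ℝ) / (t : ℝ) ^ 2 := by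
    ring
  have hn1 : 0 ≤ 256 / c₀ * (#S : ℝ) / (t : ℝ) ^ 2 := by positivity
  have hn2 : 0 ≤ (L.toNat : ℝ) ^ 2 * (#S : ℝ) / (t : ℝ) ^ 2 := by positivity
  rw [hsplit]
  rcases le_or_gt t L.toNat with htL | htL
  · constructor
    · have := VSP_small L.toNat t (#S) (Pr (Ev fun c => crs true c k (til S) a (a + 6 * t) d (d + 2 * t)))
        (VSP_le_one _) ht htL (VSP_empty _ _ _ _ _ _ _)
      linarith
    · have := VSP_small L.toNat t (#S) (Pr (Ev fun c => crs false c k (til S) a (a + 2 * t) d (d + 6 * t)))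
        (VSP_le_one _) ht htL (VSP_empty _ _ _ _ _ _ _)
      linarith
  obtain ⟨s, hs1, hs2⟩ : ∃ s : ℕ, 16 * s ≤ t ∧ t < 16 * (s + 1) := ⟨t / 16, by omega, by omega⟩
  set T : Finset (ℤ × ℤ) := (range (s + 1) ×ˢ range (s + 1)).image
    fun q : ℕ × ℕ => ((2 * (q.1 : ℤ), 2 * (q.2 : ℤ)) : ℤ × ℤ) with hT
  have hTc : #T = (s + 1) * (s + 1) := VSP_card s
  constructor
  · have hc := VSP_core ct0 men det lcr ein bkm c₀ h0 h1 true k a (a + 6 * t + 2 * s) (d + 2 * s)
      (d + 2 * t) (by omega) (by omega)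
      ((hq k a (a + 6 * t + 2 * s) (d + 2 * s) (d + 2 * t) (by omega) (by omega)).1 (by omega) (by omega))
      T S
    have hlow : ∀ τ ∈ T, Pr (Ev fun c => crs true c k (til S) a (a + 6 * t) d (d + 2 * t)) ≤
        Pr (Ev fun c => crs true c k (til (shf τ S)) a (a + 6 * t + 2 * s) (d + 2 * s) (d + 2 * t)) := by
      intro τ hτ
      rw [hT, mem_image] at hτ
      obtain ⟨⟨i, j⟩, hij, rfl⟩ := hτ
      rw [mem_product, mem_range, mem_range] at hij
      have hi : i < s + 1 := hij.1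
      have hj : j < s + 1 := hij.2
      rw [← trs true k S a (a + 6 * t) d (d + 2 * t) i j]
      apply VSP_mono
      intro β hβ
      exact (mno (col β) k (til (shf (2 * (i : ℤ), 2 * (j : ℤ)) S)) (a + 2 * i) (a + 6 * t + 2 * i) (d + 2 * j)
        (d + 2 * t + 2 * j) a (a + 6 * t + 2 * s) (d + 2 * s) (d + 2 * t)).1 (by omega) (by omega) (by omega)
        (by omega) (by omega) hβ
    have hsum := card_nsmul_le_sum T _ _ hlow
    rw [nsmul_eq_mul, hTc] at hsum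
    have := VSP_fin c₀ _ h0 (VSP_nonneg _) s t (#S) ht hs2 (hsum.trans hc)
    linarith
  · have hc := VSP_core ct0 men det lcr ein bkm c₀ h0 h1 false k (a + 2 * s) (a + 2 * t) d
      (d + 6 * t + 2 * s) (by omega) (by omega)
      ((hq k (a + 2 * s) (a + 2 * t) d (d + 6 * t + 2 * s) (by omega) (by omega)).2 (by omega) (by omega))
      T S
    have hlow : ∀ τ ∈ T, Pr (Ev fun c => crs false c k (til S) a (a + 2 * t) d (d + 6 * t)) ≤
        Pr (Ev fun c => crs false c k (til (shf τ S)) (a + 2 * s) (a + 2 * t) d (d + 6 * t + 2 * s)) := by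
      intro τ hτ
      rw [hT, mem_image] at hτ
      obtain ⟨⟨i, j⟩, hij, rfl⟩ := hτ
      rw [mem_product, mem_range, mem_range] at hij
      have hi : i < s + 1 := hij.1
      have hj : j < s + 1 := hij.2
      rw [← trs false k S a (a + 2 * t) d (d + 6 * t) i j]
      apply VSP_mono
      intro β hβ
      exact (mno (col β) k (til (shf (2 * (i : ℤ), 2 * (j : ℤ)) S)) (a + 2 * i) (a + 2 * t + 2 * i) (d + 2 * j)
        (d + 6 * t + 2 * j) (a + 2 * s) (a + 2 * t) d (d + 6 * t + 2 * s)).2 (by omega) (by omega) (by omega)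
        (by omega) (by omega) hβ
    have hsum := card_nsmul_le_sum T _ _ hlow
    rw [nsmul_eq_mul, hTc] at hsum
    have := VSP_fin c₀ _ h0 (VSP_nonneg _) s t (#S) ht hs2 (hsum.trans hc)
    linarith

end TP.TW
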